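import Pool.Agent.H84.LV.Final

set_option autoImplicit false

/-!
# The Lang-Vojta question for Büchi families

Let `F_y(T) = T ^ n + y_{n-1} T ^ (n-1) + … + y_0`, let `a_i` (`i < q`) and `b_j` (`j < p`) be
distinct constants, `μ_i ≥ 1`, and let `X` be the affine variety of dimension `n` with the
equations `x_i ^ μ_i = F_y(a_i)` and `u_j F_y(b_j) = 1` (for `μ_i = 2` and `p = 0` this is an
intersection of `q - n` diagonal quadrics), or any closed subvariety of it. For every `J ≥ 1`
such that `c = ∑ (1 - 1 / ⌈μ_i / J⌉) + p - (2 n - 1) > 0`, Q1 holds for `X` with the exceptional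
set `Exc_J = {F_y has a root of multiplicity > J}` (the discriminant hypersurface for `J = 1`, the
curve of the powers `(T - r) ^ n` for `J = n - 1`, the empty set for `J ≥ n`) and
`β(χ) = (p + 1) J n χ / c`.
-/

namespace Pool.Agent.Results.MP_70ba79_ag.BuchiFamilies

open Pool.Agent.H27.LV Pool.Agent.H84.LV

theorem result : ∀ (k : Type) [Field k] [IsAlgClosed k] [CharZero k] (n q p J : ℕ)
    (a : Fin q → k) (b : Fin p → k) (μ : Fin q → ℕ) (c : ℚ), 1 ≤ J →
    Function.Injective (Sum.elim a b) → (∀ i, 1 ≤ μ i) →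
    c = ∑ i, (1 - 1 / (⌈(μ i : ℚ) / J⌉ : ℚ)) + p - (2 * n - 1) → 0 < c →
    -- the exceptional set is closed, it does not contain `X` and it is empty if `n ≤ J`
    (∀ y : Fin n → k, (∀ g : MvPolynomial (Fin n) k,
      (∀ y' : Fin n → k, MultRoot J y' → MvPolynomial.eval y' g = 0) →
        MvPolynomial.eval y g = 0) → MultRoot J y) ∧
    (∃ z : Fin n ⊕ (Fin q ⊕ Fin p) → k, (∀ P ∈ buchiEqs a μ b, MvPolynomial.eval z P = 0) ∧
      ¬ MultRoot J (fun j => z (Sum.inl j))) ∧
    (n ≤ J → ∀ y : Fin n → k, ¬ MultRoot J y) ∧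
    -- the degree bound for the curves which are not contained in the exceptional set
    ∀ P : Set (MvPolynomial (Fin n ⊕ (Fin q ⊕ Fin p)) k), buchiEqs a μ b ⊆ P →
      ∀ g : MvPolynomial (Fin n) k,
      (∀ y : Fin n → k, MultRoot J y → MvPolynomial.eval y g = 0) →
      DegreeBound k P (MvPolynomial.rename Sum.inl g)
        (fun χ => ⌊((p : ℚ) + 1) * J * n * χ / c⌋) := by
  intro k _ _ _ n q p J a b μ c hJ hab hμ hc hc0
  exact ⟨closed J, exists_point k n q p J hJ a b μ hμ, fun h => not_multRoot_of_le h,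
    fun P hP g hg => buchi_bound k n q p J hJ a b hab μ hμ c hc hc0 P hP g hg⟩

end Pool.Agent.Results.MP_70ba79_ag.BuchiFamilies
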